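import Pool.Agent.Y478.TG.Lim

/-!
# MP_98dedd_gt: the torsion limit forces the vanishing of the rational and of the mod `p` homology
growth of odd-dimensional factors
-/

open Filter Topology

namespace Pool.Agent.Results.MP_98dedd_gt.ImpliesModPSinger

open Pool.Agent.Y478.TG

/-- Let `X` be a tower with vanishing `L²`-Betti numbers, with `L²`-torsion different from zero and
satisfying the torsion limit in degree `k` (for instance a closed hyperbolic 3-manifold, if it
satisfies the statement of the problem). Let `Y` be a tower of dimension `2 m + 1` with Poincaré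
duality. If `X × Y × Y` and the odd powers `Y ^ (2 r + 1)` with `1 ≤ r ≤ max 1 m` satisfy the torsion
limit in their middle degrees then all `L²`-Betti numbers of `Y` vanish, and for every prime `p`
with Poincaré duality mod `p` the mod `p` Betti numbers of the coverings of `Y`, divided by the
index, tend to zero. -/
theorem result : ∀ (X Y : Tower) (k m : ℕ),
    (∀ n, X.C.l2betti n = 0) → X.C.l2torsion ≠ 0 → X.TorsionLimit k →
    (∀ b, Y.C.deg b ≤ 2 * m + 1) →
    (∀ i, ∀ j ≤ 2 * m + 1, Y.betti ℚ i j = Y.betti ℚ i (2 * m + 1 - j)) →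
    (X.prod (Y.prod Y)).TorsionLimit (k + (2 * m + 1)) →
    (∀ r, 1 ≤ r → r ≤ max 1 m → (Y.oddPow r).TorsionLimit ((2 * r + 1) * m + r)) →
    (∀ n, Y.C.l2betti n = 0) ∧
      ∀ (p : ℕ) [Fact p.Prime],
        (∀ i, ∀ j ≤ 2 * m + 1, Y.betti (ZMod p) i j = Y.betti (ZMod p) i (2 * m + 1 - j)) →
        ∀ j, Tendsto (fun i => (Y.betti (ZMod p) i j : ℝ) / ((Y.N i).index : ℝ)) atTop (𝓝 0) := by
  intro X Y k m hX hρ hT hdim hP h h'
  exact Tower.main X Y Pool.Agent.Y655.KUN.t Pool.Agent.Y681.TG.Qpr.t Pool.Agent.Y681.TG.Qpr.u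
    Pool.Agent.Y407.TG.t hX hT hρ hdim hP h h'

end Pool.Agent.Results.MP_98dedd_gt.ImpliesModPSinger
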