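import Pool.Agent.Y194.TS.Coh

/-!
# The growth of the number of summands `ℤ/p^e` in the homology of towers of `p`-coverings

Let `Γ` be a group, `p` a prime and `Γ_0 ≥ Γ_1 ≥ …` a sequence of subgroups, `Γ_0` of finite index in `Γ`, each
`Γ_{i+1}` normal in `Γ_i` with index a power of `p` (for instance normal subgroups of `Γ` of `p`-power index). Let

  `ℤ[Γ] ^ r → ℤ[Γ] ^ t → ℤ[Γ] ^ s`

be a complex given by the matrices `B`, `A` over `ℤ[Γ]` with `B A = 0`, for instance a part of the cellular chain complex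
of the universal covering of a closed manifold `M` or of a finite CW-complex with fundamental group `Γ`. The
`Γ_i`-equivariant homomorphisms to an abelian group `R` form the complex of the `Γ_i`-invariant functions

  `Inv(Γ_i, R ^ s) → Inv(Γ_i, R ^ t) → Inv(Γ_i, R ^ r)`,

the cochain complex of the covering `M_i` of `M` belonging to `Γ_i`; its cohomology is `H ^ k(M_i; R)`.

Theorem. For all `e`:

1. the sequence `log |H ^ k(M_i; ℤ/p^e)| / [Γ : Γ_i]` converges;
2. the number of the direct summands of order `p^e` (`e ≥ 1`) of `H ^ k(M_i; ℤ)`, divided by `[Γ : Γ_i]`, converges; this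
   number is `2 τ(e) - τ(e - 1) - τ(e + 1)` with `τ(e) = log_p |{x ∈ H ^ k(M_i; ℤ) : p^e x = 0}|`;
3. if `log |{x ∈ H ^ k(M_i; ℤ) : p x = 0}| / [Γ : Γ_i]` converges, the same holds with `p ^ e` instead of `p` for
   all `e` (the hypothesis is satisfied if the `Γ_i` are normal in `Γ` with intersection `1`, by 1 for
   `e = 1` and Lück's approximation theorem);
4. with `z_j(i) = log |Z^{k-1}(M_i; ℤ/p^j)|` (`Z` the group of cocycles) the weighted sums
   `∑_{j < n} p^{-j} (z_{j+1}(i) - z_j(i))`, divided by `[Γ : Γ_i]`, do not increase with `i`, for all `n`.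

As the torsion of `H ^ {k+1}(M_i; ℤ)` is isomorphic to the torsion of `H_k(M_i; ℤ)` this is the existence of a part of the
limits `lim log |tors H_k(M_i)| / [Γ : Γ_i]` of the problem: for every `e` the contribution of the summands of
order at most `p ^ e` converges. For `e = 1` (coefficients `𝔽_p`) the existence of the limit is well known, the sequence
`dim H ^ k(M_i; 𝔽_p) / [Γ : Γ_i]` being essentially monotone; for `e > 1` the lengths of the cohomology
groups are not monotone, and it is the weights `p^{-j}` which make the sequences in 4 monotone.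

Proof. Let `S_i` be the group of the `Γ_i`-invariant functions `Γ → (ℝ/ℤ) ^ s` killed by `A`. The group
`Γ_i/Γ_{i+1}` acts on `S_{i+1}` with invariants `S_i`. For `X = γ - 1`, where `γ ^ p = 1` on a discrete module `H`,
one has `D_n(H) ≤ p D_n(ker X)`, `D_n(H) = ∑_{j < n} p^{-j} log (|H[p^{j+1}]| / |H[p^j]|)`: this follows by induction
from `(ker X on p H : p (ker X)) · |H[p]| ≤ |(ker X)[p]| ^ p`.
-/

set_option autoImplicit false

open Filter Topology Pool.Agent.Y194.TS

namespace Pool.Agent.Results.MP_98dedd_gt.PrimaryTorsionLimits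

/-- the logarithm of the number of the elements `x` with `q x = 0` -/
noncomputable def tau (q : ℕ) (H : Type) [AddCommGroup H] : ℝ :=
  Real.log (Nat.card {x : H // q • x = 0})

/-- `log p` times the number of the cyclic direct summands of order `p ^ (e + 1)` -/
noncomputable def summands (p e : ℕ) (H : Type) [AddCommGroup H] : ℝ :=
  2 * tau (p ^ (e + 1)) H - tau (p ^ e) H - tau (p ^ (e + 2)) H

section

variable {Γ : Type} [Group Γ]

/-- a descending sequence of subgroups, each normal of `p`-power index in the preceding one -/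
structure Chain (p : ℕ) (Δ : ℕ → Subgroup Γ) : Prop where
  finite : (Δ 0).index ≠ 0
  le : ∀ i, Δ (i + 1) ≤ Δ i
  normal : ∀ i, ((Δ (i + 1)).subgroupOf (Δ i)).Normal
  index : ∀ i, ∃ m, (Δ (i + 1)).relIndex (Δ i) = p ^ m

/-- the sequence converges after division by the index -/
def Converges (Δ : ℕ → Subgroup Γ) (u : ℕ → ℝ) : Prop :=
  ∃ L : ℝ, Tendsto (fun i => u i / (Δ i).index) atTop (𝓝 L)

/-- two consecutive maps of a complex -/
def IsComplex {r s t : ℕ} (A : Matrix (Fin t) (Fin s) (MonoidAlgebra ℤ Γ))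
    (B : Matrix (Fin r) (Fin t) (MonoidAlgebra ℤ Γ)) : Prop := B * A = 0

/-- the logarithm of the number of the elements of `H^k(Δ; ℤ/q)` -/
noncomputable def logCoh {r s t : ℕ} (A : Matrix (Fin t) (Fin s) (MonoidAlgebra ℤ Γ))
    (B : Matrix (Fin r) (Fin t) (MonoidAlgebra ℤ Γ)) (q : ℕ) (Δ : Subgroup Γ) : ℝ :=
  Real.log (Nat.card (Coh Δ A B (ZMod q)))

/-- the weighted sum of the lengths of the kernels of `A` modulo `p ^ j` -/
noncomputable def weighted {s t : ℕ} (A : Matrix (Fin t) (Fin s) (MonoidAlgebra ℤ Γ)) (p n : ℕ)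
    (Δ : Subgroup Γ) : ℝ :=
  wsum p n (fun j => Nat.card (KK Δ A (ZMod (p ^ j))))

end

theorem result {Γ : Type} [Group Γ] {p : ℕ} [Fact p.Prime] {Δ : ℕ → Subgroup Γ}
    (hΔ : Chain p Δ) {r s t : ℕ} (A : Matrix (Fin t) (Fin s) (MonoidAlgebra ℤ Γ))
    (B : Matrix (Fin r) (Fin t) (MonoidAlgebra ℤ Γ)) (hBA : IsComplex A B) (e : ℕ) :
    Converges Δ (fun i => logCoh A B (p ^ e) (Δ i)) ∧
    Converges Δ (fun i => summands p e (Coh (Δ i) A B ℤ)) ∧
    (Converges Δ (fun i => tau p (Coh (Δ i) A B ℤ)) →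
      Converges Δ (fun i => tau (p ^ e) (Coh (Δ i) A B ℤ))) ∧
    ∀ n, Antitone (fun i => weighted A p n (Δ i) / (Δ i).index) := by
  obtain ⟨h0, hle, hn, hidx⟩ := hΔ
  obtain ⟨h1, h2, h3⟩ := coh_limits (p := p) Δ hle hn hidx h0 hBA e
  refine ⟨h1, h2, h3, fun n => antitone_nat_of_succ_le fun i => ?_⟩
  have hi : ∀ i, (Δ i).index ≠ 0 := by
    intro i
    induction i with
    | zero => exact h0
    | succ i ih =>
      obtain ⟨m, hm⟩ := hidx i
      rw [← Subgroup.relIndex_mul_index (hle i), hm]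
      exact mul_ne_zero (pow_pos (Fact.out (p := p.Prime)).pos m).ne' ih
  have hi' : ∀ i, (0 : ℝ) < (Δ i).index := fun i => by
    exact_mod_cast Nat.pos_of_ne_zero (hi i)
  obtain ⟨m, hm⟩ := hidx i
  have h4 := wsum_le (p := p) (hi (i + 1)) (hle i) (hn i) hm A n
  have h5 : ((Δ (i + 1)).index : ℝ) = (p : ℝ) ^ m * (Δ i).index := by
    rw [← Subgroup.relIndex_mul_index (hle i), hm]
    push_cast
    ring
  rw [div_le_div_iff₀ (hi' (i + 1)) (hi' i), h5]
  unfold weighted
  calc wsum p n (fun j => Nat.card (KK (Δ (i + 1)) A (ZMod (p ^ j)))) * (Δ i).index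
      ≤ ((p : ℝ) ^ m * wsum p n (fun j => Nat.card (KK (Δ i) A (ZMod (p ^ j))))) * (Δ i).index :=
        mul_le_mul_of_nonneg_right h4 (hi' i).le
    _ = wsum p n (fun j => Nat.card (KK (Δ i) A (ZMod (p ^ j)))) * ((p : ℝ) ^ m * (Δ i).index) := by
      ring

end Pool.Agent.Results.MP_98dedd_gt.PrimaryTorsionLimits
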